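import Pool.Agent.Q264.TMPow17

/-!
# Powers of the Thue-Morse product: the uniform law for the exponents `2 ^ k + 1` fails
-/

set_option autoImplicit false

namespace Pool.Agent.Results.MP_1a5b88_nt.Disproof

open PowerSeries

/-- `t m n` is the coefficient of `x ^ n` in `∏_{i ≥ 0} (1 - x ^ (2 ^ i)) ^ m`; the factors with `i > n` have
`2 ^ i > n` and do not influence this coefficient. -/
noncomputable def t (m n : ℕ) : ℤ :=
  coeff n ((∏ i ∈ Finset.range (n + 1), (1 - X ^ (2 ^ i) : PowerSeries ℤ)) ^ m)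

/-- There is a strictly increasing sequence `A` with `A 0 = 0` such that the exponent of `2` in
`t (2 ^ k + 1) (2 ^ k * n + j)` is `A (ν₂ (n + 1))` for all `n` and all `j < 2 ^ k`. -/
def HasLaw (k : ℕ) : Prop :=
  ∃ A : ℕ → ℕ, StrictMono A ∧ A 0 = 0 ∧ ∀ n j : ℕ, j < 2 ^ k →
    emultiplicity (2 : ℤ) (t (2 ^ k + 1) (2 ^ k * n + j)) = (A (padicValNat 2 (n + 1)) : ℕ∞)

theorem t_eq (m n : ℕ) : t m n = coeff n (Q264.TMPow.TM ^ m) := (Q264.TMPow.TM_pow m n).symm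

/-- The law fails for `k = 4`, already because the exponents of `2` in `t 17 (16 * 31 + j)`, `j < 16`, are not
all equal; hence it does not hold for all `k ≥ 2`. -/
theorem result : ¬ HasLaw 4 ∧ ¬ (∀ k : ℕ, 2 ≤ k → HasLaw k) ∧
    emultiplicity (2 : ℤ) (t (2 ^ 4 + 1) (2 ^ 4 * 31 + 0)) ≠ emultiplicity (2 : ℤ) (t (2 ^ 4 + 1) (2 ^ 4 * 31 + 15)) := by
  have key : emultiplicity (2 : ℤ) (t (2 ^ 4 + 1) (2 ^ 4 * 31 + 0)) ≠
      emultiplicity (2 : ℤ) (t (2 ^ 4 + 1) (2 ^ 4 * 31 + 15)) := by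
    intro h
    have h1 : (2 : ℤ) ^ 19 ∣ t (2 ^ 4 + 1) (2 ^ 4 * 31 + 15) := by
      rw [t_eq]; exact Q264.TMPow.coeff_511
    have h2 : ¬ (2 : ℤ) ^ 19 ∣ t (2 ^ 4 + 1) (2 ^ 4 * 31 + 0) := by
      rw [t_eq]; exact Q264.TMPow.coeff_496
    rw [pow_dvd_iff_le_emultiplicity] at h1 h2
    rw [h] at h2
    exact h2 h1
  have h4 : ¬ HasLaw 4 := by
    rintro ⟨A, -, -, h⟩
    exact key ((h 31 0 (by norm_num)).trans (h 31 15 (by norm_num)).symm)
  exact ⟨h4, fun h => h4 (h 4 (by norm_num)), key⟩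

end Pool.Agent.Results.MP_1a5b88_nt.Disproof
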