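import Pool.Agent.Q264.TMPow2

/-!
# Powers of the Thue-Morse product: the exponents 5 and 9
-/

set_option autoImplicit false

namespace Pool.Agent.Results.MP_1a5b88_nt.ExplicitCases

open PowerSeries

/-- `t m n` is the coefficient of `x ^ n` in `∏_{i ≥ 0} (1 - x ^ (2 ^ i)) ^ m`; the factors with `i > n` have
`2 ^ i > n` and do not influence this coefficient. -/
noncomputable def t (m n : ℕ) : ℤ :=
  coeff n ((∏ i ∈ Finset.range (n + 1), (1 - X ^ (2 ^ i) : PowerSeries ℤ)) ^ m)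

theorem t_eq (m n : ℕ) : t m n = coeff n (Q264.TMPow.TM ^ m) := (Q264.TMPow.TM_pow m n).symm

theorem mult_eq {a : ℕ} {x : ℤ} (h : ∃ u : ℤ, x = 2 ^ a * (2 * u + 1)) : emultiplicity (2 : ℤ) x = (a : ℕ∞) := by
  obtain ⟨u, rfl⟩ := h
  rw [emultiplicity_eq_coe]
  refine ⟨dvd_mul_right _ _, ?_⟩
  rintro ⟨c, hc⟩
  rw [pow_succ, mul_assoc] at hc
  have := mul_left_cancel₀ (pow_ne_zero a (two_ne_zero)) hc
  omega

theorem exists_odd {n : ℕ} : ∃ N, N % 2 = 1 ∧ n + 1 = 2 ^ (padicValNat 2 (n + 1)) * N := by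
  obtain ⟨b, hb⟩ := pow_padicValNat_dvd (p := 2) (n := n + 1)
  refine ⟨b, ?_, hb⟩
  by_contra h
  obtain ⟨d, hd⟩ : 2 ∣ b := by omega
  have : 2 ^ (padicValNat 2 (n + 1) + 1) ∣ n + 1 := ⟨d, by rw [pow_succ, mul_assoc, ← hd, ← hb]⟩
  exact pow_succ_padicValNat_not_dvd (by omega) this

theorem main {k a v n N j : ℕ} (hk : Q264.TMPow.Good (2 ^ k) a (v + k)) (hN : N % 2 = 1) (h : n + 1 = 2 ^ v * N)
    (hj : j < 2 ^ k) : emultiplicity (2 : ℤ) (t (2 ^ k + 1) (2 ^ k * n + j)) = (a : ℕ∞) := by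
  apply mult_eq
  rw [t_eq]
  obtain ⟨u, hu⟩ := Q264.TMPow.val_of_good hk hN ⟨2 ^ k - 1 - j, by omega⟩
  refine ⟨u, ?_⟩
  rw [← hu]
  unfold Q264.TMPow.win
  have e : (2 : ℤ) ^ (v + k) * (N : ℤ) - (((⟨2 ^ k - 1 - j, by omega⟩ : Fin (2 ^ k)) : ℕ) + 1) =
      ((2 ^ k * n + j : ℕ) : ℤ) := by
    have h1 : ((2 ^ k - 1 - j : ℕ) : ℤ) = 2 ^ k - 1 - j := by
      rw [Nat.cast_sub (by omega), Nat.cast_sub (by omega)]
      push_cast
      ring
    simp only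
    rw [h1]
    have h2 : (n : ℤ) + 1 = 2 ^ v * N := by exact_mod_cast h
    push_cast
    rw [pow_add]
    linear_combination (-(2 : ℤ) ^ k) * h2
  rw [e, Q264.TMPow.ext0_nat]

/-- The exponents of `2` in the coefficients of the fifth and of the ninth power of the Thue-Morse product. -/
theorem result :
    (∀ n j : ℕ, j < 4 → emultiplicity (2 : ℤ) (t 5 (4 * n + j)) =
      ((4 * ((padicValNat 2 (n + 1) + 1) / 2) - padicValNat 2 (n + 1) % 2 : ℕ) : ℕ∞)) ∧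
    (∀ n j : ℕ, j < 8 → emultiplicity (2 : ℤ) (t 9 (8 * n + j)) =
      ((5 * ((padicValNat 2 (n + 1) + 1) / 2) - 2 * (padicValNat 2 (n + 1) % 2) : ℕ) : ℕ∞)) := by
  refine ⟨fun n j hj => ?_, fun n j hj => ?_⟩
  · obtain ⟨N, hN, h⟩ := exists_odd (n := n)
    exact main (k := 2) (Q264.TMPow.good4 _) hN h hj
  · obtain ⟨N, hN, h⟩ := exists_odd (n := n)
    exact main (k := 3) (Q264.TMPow.good8 _) hN h hj

end Pool.Agent.Results.MP_1a5b88_nt.ExplicitCases
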